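import Pool.Agent.H756.SB.Stm

/-! SB-CONN: connectivity of the signed admissible placements under double exchanges of neighbouring
positions (for helper756, project SB). -/

set_option autoImplicit false

namespace Pool.Agent.U312.SB.CONN

open Pool.Agent.H756.SB

variable {n : ℕ}

theorem mem_cfs {N : ℕ} {S : Fin n × Bool → Fin n × Bool → Prop} {g : Fin n → ℕ} :
    g ∈ cfs N S ↔ (∀ a, g a < 2 * N) ∧ (∀ a b, a ≠ b → g a ≠ g b ∧ g a + g b + 1 ≠ 2 * N) ∧
      ∀ u v, S u v → ps N g u < ps N g v := by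
  classical
  unfold cfs
  rw [Finset.mem_filter, Fintype.mem_piFinset]
  simp only [Finset.mem_range]

theorem ps_f {N : ℕ} {g : Fin n → ℕ} (a : Fin n) : ps N g (a, false) = g a := by simp [ps]

theorem ps_t {N : ℕ} {g : Fin n → ℕ} (a : Fin n) : ps N g (a, true) = 2 * N - 1 - g a := by
  simp [ps]

theorem ps_neg {N : ℕ} {g : Fin n → ℕ} (h1 : ∀ a, g a < 2 * N) (u : Fin n × Bool) :
    ps N g (u.1, !u.2) = 2 * N - 1 - ps N g u := by
  obtain ⟨a, s⟩ := u
  have := h1 a
  cases s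
  · simp only [Bool.not_false, ps_f, ps_t]
  · simp only [Bool.not_true, ps_f, ps_t]
    omega

theorem ps_lt {N : ℕ} {g : Fin n → ℕ} (h1 : ∀ a, g a < 2 * N) (u : Fin n × Bool) :
    ps N g u < 2 * N := by
  obtain ⟨a, s⟩ := u
  have := h1 a
  cases s
  · rw [ps_f]; exact this
  · rw [ps_t]; omega

theorem ps_inj {N : ℕ} {g : Fin n → ℕ} (h1 : ∀ a, g a < 2 * N)
    (h2 : ∀ a b, a ≠ b → g a ≠ g b ∧ g a + g b + 1 ≠ 2 * N) {u v : Fin n × Bool}
    (h : ps N g u = ps N g v) : u = v := by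
  obtain ⟨a, s⟩ := u
  obtain ⟨b, t⟩ := v
  have ha := h1 a
  have hb := h1 b
  by_cases hab : a = b
  · subst hab
    cases s <;> cases t <;> simp only [ps_f, ps_t] at h <;> first | rfl | (exfalso; omega)
  · have := h2 a b hab
    exfalso
    cases s <;> cases t <;> simp only [ps_f, ps_t] at h <;> omega

theorem rf_mirror {N k y : ℕ} (hk : k < N) (hy : y < 2 * N) :
    rf N k (k + 1) (2 * N - 1 - y) = 2 * N - 1 - rf N k (k + 1) y := by
  unfold rf
  split_ifs <;> omega

theorem rf_lt {N k y : ℕ} (hk : k < N) (hy : y < 2 * N) : rf N k (k + 1) y < 2 * N := by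
  unfold rf
  split_ifs <;> omega

theorem rf_inj {N k y z : ℕ} (hk : k < N) (hy : y < 2 * N) (hz : z < 2 * N)
    (h : rf N k (k + 1) y = rf N k (k + 1) z) : y = z := by
  unfold rf at h
  split_ifs at h <;> omega

theorem rf_x {N k x : ℕ} (hk : k < N) (hx : x + 1 < 2 * N) (hkx : k = x ∨ k + x + 2 = 2 * N) :
    rf N k (k + 1) x = x + 1 := by
  unfold rf
  split_ifs <;> omega

theorem rf_x1 {N k x : ℕ} (hk : k < N) (hx : x + 1 < 2 * N) (hkx : k = x ∨ k + x + 2 = 2 * N) :
    rf N k (k + 1) (x + 1) = x := by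
  unfold rf
  split_ifs <;> omega

theorem rf_other {N k x y : ℕ} (hk : k < N) (hx : x + 1 < 2 * N)
    (hkx : k = x ∨ k + x + 2 = 2 * N) (h1 : y ≠ x) (h2 : y ≠ x + 1) (h3 : y + x + 1 ≠ 2 * N)
    (h4 : y + x + 2 ≠ 2 * N) : rf N k (k + 1) y = y := by
  unfold rf
  split_ifs <;> omega

theorem rf_mono {N k x y z : ℕ} (hk : k < N) (hx : x + 1 < 2 * N)
    (hkx : k = x ∨ k + x + 2 = 2 * N) (hyz : y < z) (hz : z < 2 * N)
    (h1 : ¬ (y = x ∧ z = x + 1)) (h2 : ¬ (y + x + 2 = 2 * N ∧ z + x + 1 = 2 * N)) :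
    rf N k (k + 1) y < rf N k (k + 1) z := by
  unfold rf
  split_ifs <;> omega

theorem ps_mvs {N k : ℕ} {g : Fin n → ℕ} (h1 : ∀ a, g a < 2 * N) (hk : k < N)
    (u : Fin n × Bool) : ps N (mvs N k (k + 1) g) u = rf N k (k + 1) (ps N g u) := by
  obtain ⟨a, s⟩ := u
  cases s
  · simp only [ps_f, mvs]
  · simp only [ps_t, mvs]
    rw [rf_mirror hk (h1 a)]

theorem mvs_mem {N : ℕ} {S : Fin n × Bool → Fin n × Bool → Prop} {g : Fin n → ℕ}
    (hg : g ∈ cfs N S) {k x : ℕ} (hk : k < N) (hx : x + 1 < 2 * N)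
    (hkx : k = x ∨ k + x + 2 = 2 * N)
    (h : ∀ u v, S u v → ¬ (ps N g u = x ∧ ps N g v = x + 1) ∧
      ¬ (ps N g u + x + 2 = 2 * N ∧ ps N g v + x + 1 = 2 * N)) :
    mvs N k (k + 1) g ∈ cfs N S := by
  rw [mem_cfs] at hg ⊢
  refine ⟨fun a => rf_lt hk (hg.1 a), fun a b hab => ⟨fun h' => ?_, fun h' => ?_⟩, fun u v huv => ?_⟩
  · exact (hg.2.1 a b hab).1 (rf_inj hk (hg.1 a) (hg.1 b) h')
  · have e1 := rf_mirror hk (hg.1 b)
    have e2 := rf_lt hk (hg.1 b)
    have e3 : rf N k (k + 1) (g a) + rf N k (k + 1) (g b) + 1 = 2 * N := h'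
    have e4 : rf N k (k + 1) (g a) = rf N k (k + 1) (2 * N - 1 - g b) := by omega
    have hb := hg.1 b
    have e5 := rf_inj hk (hg.1 a) (by omega) e4
    exact (hg.2.1 a b hab).2 (by omega)
  · rw [ps_mvs hg.1 hk, ps_mvs hg.1 hk]
    exact rf_mono hk hx hkx (hg.2.2 u v huv) (ps_lt hg.1 v) (h u v huv).1 (h u v huv).2

theorem dif {N k : ℕ} {g h : Fin n → ℕ} (hg : ∀ a, g a < 2 * N) (hh : ∀ a, h a < 2 * N)
    (hk : k < N) (w : Fin n × Bool) :
    ((mvs N k (k + 1) g w.1 : ℤ) - h w.1) ^ 2 - ((g w.1 : ℤ) - h w.1) ^ 2 =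
      ((rf N k (k + 1) (ps N g w) : ℤ) - ps N h w) ^ 2 - ((ps N g w : ℤ) - ps N h w) ^ 2 := by
  obtain ⟨a, s⟩ := w
  have e1 := hg a
  have e2 := hh a
  have e3 := rf_lt hk e1
  cases s
  · simp only [ps_f, mvs]
  · simp only [ps_t, mvs]
    rw [rf_mirror hk e1]
    have e4 : ((2 * N - 1 - rf N k (k + 1) (g a) : ℕ) : ℤ) =
        2 * N - 1 - (rf N k (k + 1) (g a) : ℤ) := by omega
    have e5 : ((2 * N - 1 - g a : ℕ) : ℤ) = 2 * N - 1 - (g a : ℤ) := by omega
    have e6 : ((2 * N - 1 - h a : ℕ) : ℤ) = 2 * N - 1 - (h a : ℤ) := by omega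
    rw [e4, e5, e6]
    ring

theorem step {N : ℕ} {S : Fin n × Bool → Fin n × Bool → Prop} {g h : Fin n → ℕ}
    (hg : g ∈ cfs N S) (hh : h ∈ cfs N S) (hne : g ≠ h) :
    ∃ k, k < N ∧ mvs N k (k + 1) g ∈ cfs N S ∧
      ∑ a, ((mvs N k (k + 1) g a : ℤ) - h a) ^ 2 < ∑ a, ((g a : ℤ) - h a) ^ 2 := by
  have hg' := mem_cfs.1 hg
  have hh' := mem_cfs.1 hh
  obtain ⟨u, hu, hmax⟩ := Finset.exists_max_image
    (Finset.univ.filter (fun u : Fin n × Bool => ps N g u < ps N h u)) (ps N g)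
    (by
      have hex : ∃ a, g a ≠ h a := by
        by_contra hcon
        push Not at hcon
        exact hne (funext hcon)
      obtain ⟨a, ha⟩ := hex
      have e1 := hg'.1 a
      have e2 := hh'.1 a
      rcases lt_or_gt_of_ne ha with h1 | h1
      · exact ⟨(a, false), Finset.mem_filter.2 ⟨Finset.mem_univ _, by rw [ps_f, ps_f]; exact h1⟩⟩
      · exact ⟨(a, true), Finset.mem_filter.2 ⟨Finset.mem_univ _, by rw [ps_t, ps_t]; omega⟩⟩)
  rw [Finset.mem_filter] at hu
  have hu2 := hu.2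
  have hhu := ps_lt hh'.1 u
  obtain ⟨x, hxdef⟩ : ∃ x, x = ps N g u := ⟨_, rfl⟩
  rw [← hxdef] at hu2
  have hx : x + 1 < 2 * N := by omega
  obtain ⟨k, hk, hkx⟩ : ∃ k, k < N ∧ (k = x ∨ k + x + 2 = 2 * N) := by
    by_cases hxN : x < N
    · exact ⟨x, hxN, Or.inl rfl⟩
    · exact ⟨2 * N - 2 - x, by omega, Or.inr (by omega)⟩
  have huniq : ∀ w, ps N g w = x → w = u := fun w hw =>
    ps_inj hg'.1 hg'.2.1 (hw.trans hxdef)
  have huniq' : ∀ w, ps N g w + x + 1 = 2 * N → w = (u.1, !u.2) := fun w hw =>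
    ps_inj hg'.1 hg'.2.1 (by
      rw [ps_neg hg'.1, ← hxdef]
      omega)
  have du : ((mvs N k (k + 1) g u.1 : ℤ) - h u.1) ^ 2 - ((g u.1 : ℤ) - h u.1) ^ 2 =
      2 * x + 1 - 2 * ps N h u := by
    rw [dif hg'.1 hh'.1 hk u, ← hxdef, rf_x hk hx hkx]
    push_cast
    ring
  refine ⟨k, hk, ?_⟩
  rw [← sub_neg, ← Finset.sum_sub_distrib]
  by_cases hb : ∃ v, ps N g v = x + 1
  · obtain ⟨v, hv⟩ := hb
    have hvu : v ≠ u := by
      rintro rfl
      omega
    have hvlt : ps N h v < ps N h u := by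
      have e1 : ps N h v ≤ ps N g v := by
        by_contra hcon
        push Not at hcon
        have := hmax v (Finset.mem_filter.2 ⟨Finset.mem_univ _, hcon⟩)
        omega
      have e2 : ps N h v ≠ ps N h u := fun h' => hvu (ps_inj hh'.1 hh'.2.1 h')
      omega
    have hvuniq : ∀ w, ps N g w = x + 1 → w = v := fun w hw =>
      ps_inj hg'.1 hg'.2.1 (hw.trans hv.symm)
    have hvuniq' : ∀ w, ps N g w + x + 2 = 2 * N → w = (v.1, !v.2) := fun w hw =>
      ps_inj hg'.1 hg'.2.1 (by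
        rw [ps_neg hg'.1, hv]
        omega)
    refine ⟨mvs_mem hg hk hx hkx ?_, ?_⟩
    · rintro c d hcd
      refine ⟨?_, ?_⟩
      · rintro ⟨h1, h2⟩
        rw [huniq c h1, hvuniq d h2] at hcd
        have := hh'.2.2 _ _ hcd
        omega
      · rintro ⟨h1, h2⟩
        rw [hvuniq' c h1, huniq' d h2] at hcd
        have := hh'.2.2 _ _ hcd
        rw [ps_neg hh'.1, ps_neg hh'.1] at this
        omega
    · have dv : ((mvs N k (k + 1) g v.1 : ℤ) - h v.1) ^ 2 - ((g v.1 : ℤ) - h v.1) ^ 2 =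
          2 * ps N h v - 2 * x - 1 := by
        rw [dif hg'.1 hh'.1 hk v, hv, rf_x1 hk hx hkx]
        push_cast
        ring
      have hother : ∀ c, c ≠ u.1 → c ≠ v.1 →
          ((mvs N k (k + 1) g c : ℤ) - h c) ^ 2 - ((g c : ℤ) - h c) ^ 2 = 0 := by
        intro c hcu hcv
        have e1 := hg'.1 c
        have : mvs N k (k + 1) g c = g c := by
          apply rf_other hk hx hkx
          · intro h'
            exact hcu (by rw [← huniq (c, false) (by rw [ps_f]; exact h')])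
          · intro h'
            exact hcv (by rw [← hvuniq (c, false) (by rw [ps_f]; exact h')])
          · intro h'
            exact hcu (by rw [← huniq (c, true) (by rw [ps_t]; omega)])
          · intro h'
            exact hcv (by rw [← hvuniq (c, true) (by rw [ps_t]; omega)])
        rw [this, sub_self]
      by_cases huv : u.1 = v.1
      · rw [Finset.sum_eq_single u.1]
        · rw [du]
          omega
        · intro c _ hc
          exact hother c hc (by rw [← huv]; exact hc)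
        · intro h'
          exact absurd (Finset.mem_univ _) h'
      · rw [Finset.sum_eq_add u.1 v.1 huv]
        · rw [du, dv]
          omega
        · rintro c _ ⟨h1, h2⟩
          exact hother c h1 h2
        · intro h'
          exact absurd (Finset.mem_univ _) h'
        · intro h'
          exact absurd (Finset.mem_univ _) h'
  · push Not at hb
    refine ⟨mvs_mem hg hk hx hkx ?_, ?_⟩
    · rintro c d -
      refine ⟨fun h' => hb d h'.2, ?_⟩
      rintro ⟨h1, -⟩
      refine hb (c.1, !c.2) ?_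
      rw [ps_neg hg'.1]
      omega
    · rw [Finset.sum_eq_single u.1]
      · rw [du]
        omega
      · intro c _ hcu
        have e1 := hg'.1 c
        have : mvs N k (k + 1) g c = g c := by
          apply rf_other hk hx hkx
          · intro h'
            exact hcu (by rw [← huniq (c, false) (by rw [ps_f]; exact h')])
          · intro h'
            exact hb (c, false) (by rw [ps_f]; exact h')
          · intro h'
            exact hcu (by rw [← huniq (c, true) (by rw [ps_t]; omega)])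
          · intro h'
            exact hb (c, true) (by rw [ps_t]; omega)
        rw [this, sub_self]
      · intro h'
        exact absurd (Finset.mem_univ _) h'

theorem t_CONN : S_CONN := by
  intro n N S F hF
  have key : ∀ m : ℕ, ∀ g ∈ cfs N S, ∀ h ∈ cfs N S,
      ∑ a, ((g a : ℤ) - h a) ^ 2 ≤ (m : ℤ) → F g = F h := by
    intro m
    induction m with
    | zero =>
      intro g _ h _ hm
      have h0 : ∀ a ∈ Finset.univ, (0 : ℤ) ≤ ((g a : ℤ) - h a) ^ 2 := fun a _ => sq_nonneg _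
      have h1 : ∑ a, ((g a : ℤ) - h a) ^ 2 = 0 :=
        le_antisymm (by simpa using hm) (Finset.sum_nonneg h0)
      rw [Finset.sum_eq_zero_iff_of_nonneg h0] at h1
      have h2 : g = h := by
        funext a
        have h3 := h1 a (Finset.mem_univ a)
        rw [sq_eq_zero_iff, sub_eq_zero] at h3
        exact_mod_cast h3
      rw [h2]
    | succ m ih =>
      intro g hg h hh hm
      by_cases hne : g = h
      · rw [hne]
      · obtain ⟨k, hk, hmem, hlt⟩ := step hg hh hne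
        rw [← hF g hg k hk hmem]
        apply ih _ hmem h hh
        push_cast at hm
        linarith
  intro g hg h hh
  have h0 : (0 : ℤ) ≤ ∑ a, ((g a : ℤ) - h a) ^ 2 := Finset.sum_nonneg fun a _ => sq_nonneg _
  obtain ⟨m, hm⟩ := Int.eq_ofNat_of_zero_le h0
  exact key m g hg h hh (le_of_eq hm)

end Pool.Agent.U312.SB.CONN
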